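import Pool.Agent.W495.DC.Twist

/-!
# Deligne's period conjecture for potentially CM motives of odd weight

A motive over `ℚ` is potentially CM if it belongs to the tensor category generated by the Artin
motives and by the abelian varieties over `ℚ` that have complex multiplication over `ℚ̄`; examples of
odd weight are `H^i(A)` for such an abelian variety `A` and odd `i`, and its twists by Artin motives of
any dimension. The coefficients are an arbitrary number field `F`.

For all potentially CM motives `M` of odd weight `w` and all critical integers `s₀` different from the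
central point `(w + 1)/2` one has `L(M, s₀) ∈ c⁺(M, s₀) F`.
-/

namespace Pool.Agent.Results.MP_cd171c_nt.PotentiallyCM

open Pool.Agent.W495.DC

/-- Deligne's conjecture for a potentially CM motive `M` of odd weight `w` over `ℚ`, with coefficients
in any number field `F`, at every critical integer `s₀ ≠ (w + 1)/2`. -/
theorem result (T : Motives) (hT : IsMotives T) (hB : HasBrauer T) (S : Twists T)
    (hS : IsTwists T S) (F : Type) [Field F] [NumberField F] (M : T.Mot F) (hM : T.IsPotCM M)
    (hne : (T.inv M).types.Nonempty) (hw : Odd (T.inv M).w) (s₀ : ℤ)
    (hs : (T.inv M).IsCritical s₀) (hc : 2 * s₀ ≠ (T.inv M).w + 1) :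
    S.alpha M s₀ ∧ ∃ l : F, ∀ σ : F →+* ℂ, (T.inv M).L s₀ σ = S.cplus M s₀ σ * σ l :=
  odd_main hT hB hS M hM hne hw s₀ hs hc

end Pool.Agent.Results.MP_cd171c_nt.PotentiallyCM
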